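import Mathlib

set_option autoImplicit false

namespace Pool.Agent.Results.MP_2fa0cb_nt.RankTwo

open Polynomial OnePoint

open Classical in
/-- A rational function h = num/denom (in lowest terms) as a self-map of the Riemann sphere. -/
noncomputable def act (h : RatFunc ℂ) : OnePoint ℂ → OnePoint ℂ := fun x =>
  x.elim
    (if h.denom.degree < h.num.degree then ∞
      else ((h.num.coeff h.denom.natDegree / h.denom.leadingCoeff : ℂ) : OnePoint ℂ))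
    (fun z => if h.denom.eval z = 0 then ∞ else ((h.num.eval z / h.denom.eval z : ℂ) : OnePoint ℂ))

/-- The degree of a rational function. -/
noncomputable def deg (h : RatFunc ℂ) : ℕ := max h.num.natDegree h.denom.natDegree

/-- The rank-two recurrence set. -/
def recSet (f g c : RatFunc ℂ) : Set (ℕ × ℕ) :=
  {q | ∃ x : OnePoint ℂ, act c x = (act f)^[q.1] x ∧ (act f)^[q.1] x = (act g)^[q.2] x}

/-- The linear set a + (submonoid generated by P). -/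
def linSet (a : ℕ × ℕ) (P : Finset (ℕ × ℕ)) : Set (ℕ × ℕ) :=
  {x | ∃ s ∈ AddSubmonoid.closure (P : Set (ℕ × ℕ)), x = a + s}

/-- Finite unions of linear sets. -/
def SemiLinear (S : Set (ℕ × ℕ)) : Prop :=
  ∃ F : Finset ((ℕ × ℕ) × Finset (ℕ × ℕ)), S = ⋃ q ∈ F, linSet q.1 q.2

open Classical in
theorem act_coe (h : RatFunc ℂ) (z : ℂ) : act h z =
    if h.denom.eval z = 0 then ∞ else ((h.num.eval z / h.denom.eval z : ℂ) : OnePoint ℂ) := rfl

open Classical in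
theorem act_infty (h : RatFunc ℂ) : act h ∞ = if h.denom.degree < h.num.degree then ∞
      else ((h.num.coeff h.denom.natDegree / h.denom.leadingCoeff : ℂ) : OnePoint ℂ) := rfl

theorem pump {S : Set (ℕ × ℕ)} (h : SemiLinear S) (s : ℕ → ℕ × ℕ) (hs : ∀ j, s j ∈ S) :
    ∃ j j' d, j ≠ j' ∧ s j' = s j + d ∧ ∀ t : ℕ, s j + t • d ∈ S := by
  obtain ⟨F, rfl⟩ := h
  have h1 : ∀ j, ∃ q : F, ∃ c : q.1.2 → ℕ, s j = q.1.1 + ∑ i : q.1.2, c i • i.1 := by
    intro j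
    have := hs j
    simp only [Set.mem_iUnion] at this
    obtain ⟨q, hq, u, hu, e⟩ := this
    obtain ⟨c, hc⟩ := AddSubmonoid.mem_closure_finset'.1 hu
    exact ⟨⟨q, hq⟩, c, by rw [e, hc]⟩
  choose q hq using h1
  obtain ⟨q0, hinf⟩ := Finite.exists_infinite_fiber q
  let e : ℕ ↪ (q ⁻¹' {q0}) := Infinite.natEmbedding _
  have h2 : ∀ n, ∃ c : q0.1.2 → ℕ, s (e n).1 = q0.1.1 + ∑ i : q0.1.2, c i • i.1 := by
    intro n
    have h3 : q (e n).1 = q0 := (e n).2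
    have := hq (e n).1
    rwa [h3] at this
  choose c hc using h2
  obtain ⟨m, n, hmn, hle⟩ := wellQuasiOrdered_le c
  refine ⟨e m, e n, ∑ i : q0.1.2, (c n i - c m i) • i.1, ?_, ?_, ?_⟩
  · intro h
    have := e.injective (Subtype.ext h)
    omega
  · rw [hc m, hc n, add_assoc, ← Finset.sum_add_distrib]
    congr 1
    refine Finset.sum_congr rfl (fun i _ => ?_)
    rw [← add_nsmul]
    congr 1
    have : c m i ≤ c n i := hle i
    omega
  · intro t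
    simp only [Set.mem_iUnion]
    refine ⟨q0.1, q0.2, _, ?_, by rw [hc m, add_assoc]⟩
    refine AddSubmonoid.add_mem _ ?_ (AddSubmonoid.nsmul_mem _ ?_ _) <;>
      exact AddSubmonoid.mem_closure_finset'.2 ⟨_, rfl⟩

theorem act_sq (z : ℂ) (m : ℕ) :
    (act (algebraMap ℂ[X] (RatFunc ℂ) (X ^ 2)))^[m] (z : OnePoint ℂ) =
      ((z ^ 2 ^ m : ℂ) : OnePoint ℂ) := by
  induction m with
  | zero => simp
  | succ m ih =>
    rw [Function.iterate_succ_apply', ih]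
    rw [act_coe, RatFunc.num_algebraMap, RatFunc.denom_algebraMap]
    simp [pow_succ, pow_mul]

theorem act_sq_inf (m : ℕ) :
    (act (algebraMap ℂ[X] (RatFunc ℂ) (X ^ 2)))^[m] ∞ = ∞ := by
  apply Function.iterate_fixed
  rw [act_infty, RatFunc.num_algebraMap, RatFunc.denom_algebraMap]
  simp

theorem nd (w : ℂ) (hw : w ≠ 0) :
    (algebraMap ℂ[X] (RatFunc ℂ) (C w) / algebraMap ℂ[X] (RatFunc ℂ) X).num = C w ∧
    (algebraMap ℂ[X] (RatFunc ℂ) (C w) / algebraMap ℂ[X] (RatFunc ℂ) X).denom = X := by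
  set h := algebraMap ℂ[X] (RatFunc ℂ) (C w) / algebraMap ℂ[X] (RatFunc ℂ) X with hh
  have e : h.num * X = C w * h.denom := (RatFunc.num_mul_eq_mul_denom_iff X_ne_zero).2 hh
  have d1 : h.denom ∣ X :=
    (RatFunc.isCoprime_num_denom h).symm.dvd_of_dvd_mul_left ⟨C w, by rw [e, mul_comm]⟩
  have d2 : X ∣ h.denom := by
    have hu : IsUnit (C w) := isUnit_C.2 (IsUnit.mk0 w hw)
    exact hu.dvd_mul_left.1 ⟨h.num, by rw [← e, mul_comm]⟩
  have d3 : h.denom = X :=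
    eq_of_monic_of_associated (RatFunc.monic_denom h) monic_X (associated_of_dvd_dvd d1 d2)
  rw [d3] at e
  exact ⟨mul_right_cancel₀ X_ne_zero e, d3⟩

theorem mem_iff (w : ℂ) (hw : w ≠ 0) (m n : ℕ) :
    (m, n) ∈ recSet (algebraMap ℂ[X] (RatFunc ℂ) (X ^ 2)) (algebraMap ℂ[X] (RatFunc ℂ) (X ^ 2))
      (algebraMap ℂ[X] (RatFunc ℂ) (C w) / algebraMap ℂ[X] (RatFunc ℂ) X) ↔
      ∃ z : ℂ, z ^ (2 ^ m + 1) = w ∧ z ^ 2 ^ m = z ^ 2 ^ n := by
  obtain ⟨h1, h2⟩ := nd w hw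
  constructor
  · rintro ⟨x, a, b⟩
    induction x using OnePoint.rec with
    | infty =>
      rw [act_sq_inf, act_infty, h1, h2] at a
      simp [degree_C hw] at a
    | coe z =>
      simp only [act_sq] at a b
      rw [act_coe, h1, h2] at a
      by_cases hz : z = 0
      · simp [hz] at a
      · simp only [eval_X, hz, if_false, eval_C, OnePoint.coe_eq_coe] at a b
        exact ⟨z, by rw [pow_succ, ← a]; field_simp, b⟩
  · rintro ⟨z, a, b⟩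
    have hz : z ≠ 0 := by
      rintro rfl
      simp at a
      exact hw a.symm
    refine ⟨z, ?_, ?_⟩
    · simp only [act_sq]
      rw [act_coe, h1, h2]
      simp only [eval_X, hz, if_false, eval_C, OnePoint.coe_eq_coe]
      rw [← a, pow_succ]; field_simp
    · simp only [act_sq, b]

theorem L1 (j : ℕ) : ∃ A : ℕ, 2 ^ 3 ^ j + 1 = 3 ^ (j + 1) * A ∧ A % 3 = 1 := by
  induction j with
  | zero => exact ⟨1, by norm_num⟩
  | succ j ih =>
    obtain ⟨A, h1, h2⟩ := ih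
    have h3 : (2 : ℤ) ^ 3 ^ j = 3 ^ (j + 1) * A - 1 := by
      have : ((2 ^ 3 ^ j + 1 : ℕ) : ℤ) = ((3 ^ (j + 1) * A : ℕ) : ℤ) := by rw [h1]
      push_cast at this
      linarith
    have h4 : (2 : ℤ) ^ 3 ^ (j + 1) + 1 =
        3 ^ (j + 1 + 1) * (A + 3 * (3 ^ j * A ^ 2 * (3 ^ j * A - 1))) := by
      rw [pow_succ 3 j, pow_mul, h3]; ring
    have hA : (1 : ℤ) ≤ 3 ^ j * A := by
      have : (1 : ℤ) ≤ A := by omega
      have : (1 : ℤ) ≤ 3 ^ j := one_le_pow₀ (by norm_num)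
      nlinarith
    have h5 : (0 : ℤ) ≤ 3 ^ j * A ^ 2 * (3 ^ j * A - 1) := by
      have : (0 : ℤ) ≤ 3 ^ j * A - 1 := by linarith
      positivity
    obtain ⟨K, hK⟩ := Int.eq_ofNat_of_zero_le h5
    rw [hK] at h4
    exact ⟨A + 3 * K, by exact_mod_cast h4, by omega⟩

theorem val4 (D : ℕ) (hD : D ≠ 0) : padicValNat 3 (4 ^ D - 1) = 1 + padicValNat 3 D := by
  have : Fact (Nat.Prime 3) := ⟨by norm_num⟩
  have := padicValNat.pow_sub_pow (p := 3) (x := 4) (y := 1) (by decide) (by norm_num) (by norm_num)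
    (by norm_num) hD
  simpa using this

theorem two_pow (m D : ℕ) : 2 ^ (m + 2 * D) = 2 ^ m + 2 ^ m * (4 ^ D - 1) := by
  have : 1 ≤ 4 ^ D := Nat.one_le_pow _ _ (by norm_num)
  rw [pow_add, pow_mul]
  zify [this]
  ring

theorem inS (w : ℂ) (hw : w ^ 3 = 1) (j : ℕ) :
    ∃ z : ℂ, z ^ (2 ^ 3 ^ j + 1) = w ∧ z ^ 2 ^ 3 ^ j = z ^ 2 ^ (3 ^ j + 2 * 3 ^ (2 * j + 1)) := by
  have : Fact (Nat.Prime 3) := ⟨by norm_num⟩
  obtain ⟨z, hz⟩ := IsAlgClosed.exists_pow_nat_eq w (n := 3 ^ (j + 1)) (by positivity)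
  obtain ⟨A, h1, h2⟩ := L1 j
  refine ⟨z, ?_, ?_⟩
  · rw [h1, pow_mul, hz, ← Nat.div_add_mod A 3, h2, pow_add, pow_mul, hw]; simp
  · have hv := val4 (3 ^ (2 * j + 1)) (by positivity)
    rw [padicValNat.prime_pow] at hv
    have hd : 3 ^ (j + 1 + 1) ∣ 4 ^ 3 ^ (2 * j + 1) - 1 :=
      (pow_dvd_pow 3 (by omega)).trans (pow_padicValNat_dvd (p := 3))
    obtain ⟨K, hK⟩ := hd
    rw [two_pow, hK, pow_add z, mul_comm (2 ^ 3 ^ j), mul_assoc, pow_succ 3 (j + 1), mul_assoc,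
      pow_mul z (3 ^ (j + 1)), hz, pow_mul, hw]
    simp

theorem outS (w : ℂ) (hw : IsPrimitiveRoot w 3) (R D : ℕ) (hD : ¬ 3 ^ (R + 1) ∣ D) (z : ℂ)
    (h1 : z ^ (2 ^ 3 ^ R + 1) = w) (h2 : z ^ 2 ^ 3 ^ R = z ^ 2 ^ (3 ^ R + 2 * D)) : False := by
  have : Fact (Nat.Prime 3) := ⟨by norm_num⟩
  have hD0 : D ≠ 0 := by rintro rfl; simp at hD
  have hz : z ≠ 0 := by
    rintro rfl
    simp at h1
    exact hw.ne_zero (by norm_num) h1.symm
  rw [two_pow, pow_add] at h2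
  have h3 : z ^ (2 ^ 3 ^ R * (4 ^ D - 1)) = 1 :=
    (mul_left_cancel₀ (pow_ne_zero _ hz) (by rw [← h2, mul_one])).symm
  obtain ⟨A, a1, -⟩ := L1 R
  have hN : 4 ^ D - 1 ≠ 0 := by
    have : 1 < 4 ^ D := Nat.one_lt_pow hD0 (by norm_num)
    omega
  obtain ⟨e, N, n1, n2⟩ := Nat.exists_eq_pow_mul_and_not_dvd hN 3 (by norm_num)
  have he : e ≤ R + 1 := by
    have b1 : e ≤ padicValNat 3 (4 ^ D - 1) := (padicValNat_dvd_iff_le hN).1 ⟨N, n2⟩
    have b2 : ¬ R + 1 ≤ padicValNat 3 D := fun h => hD ((padicValNat_dvd_iff_le hD0).2 h)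
    rw [val4 D hD0] at b1
    omega
  obtain ⟨k, hk⟩ := Nat.exists_eq_add_of_le he
  have h4 : w ^ (2 ^ 3 ^ R * N) = 1 := by
    rw [← h1, a1, ← pow_mul, hk, show 3 ^ (e + k) * A * (2 ^ 3 ^ R * N) =
      (2 ^ 3 ^ R * (3 ^ e * N)) * (3 ^ k * A) by ring, ← n2, pow_mul, h3, one_pow]
  have h5 := hw.dvd_of_pow_eq_one _ h4
  rcases (Nat.Prime.dvd_mul (by norm_num)).1 h5 with h | h
  · have := Nat.Prime.dvd_of_dvd_pow (by norm_num) h
    omega
  · exact n1 h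

theorem result : ∃ f g c : RatFunc ℂ, 2 ≤ deg f ∧ 2 ≤ deg g ∧ ¬ SemiLinear (recSet f g c) := by
  have hw := Complex.isPrimitiveRoot_exp 3 (by norm_num)
  set w := Complex.exp (2 * Real.pi * Complex.I / (3 : ℕ))
  have hw0 : w ≠ 0 := hw.ne_zero (by norm_num)
  have hdeg : 2 ≤ deg (algebraMap ℂ[X] (RatFunc ℂ) (X ^ 2)) := by
    rw [deg, RatFunc.num_algebraMap]
    simp
  refine ⟨_, _, algebraMap ℂ[X] (RatFunc ℂ) (C w) / algebraMap ℂ[X] (RatFunc ℂ) X, hdeg, hdeg,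
    fun h => ?_⟩
  obtain ⟨j, j', d, hne, hd, ht⟩ := pump h (fun j => (3 ^ j, 3 ^ j + 2 * 3 ^ (2 * j + 1)))
    (fun j => (mem_iff w hw0 _ _).2 (inS w hw.pow_eq_one j))
  obtain ⟨d1, d2⟩ := d
  simp only [Prod.mk_add_mk, Prod.mk.injEq] at hd
  have hlt : j < j' := by
    have : 3 ^ j ≤ 3 ^ j' := by omega
    have := (Nat.pow_le_pow_iff_right (by norm_num)).1 this
    omega
  obtain ⟨b, rfl⟩ := Nat.exists_eq_add_of_lt hlt
  set y := 3 ^ (b + 1) with hy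
  have hy1 : 1 ≤ y := Nat.one_le_pow _ _ (by norm_num)
  set t := ∑ i ∈ Finset.range (j + 2), y ^ i with htdef
  have hgeom : (t : ℤ) * (y - 1) = y ^ (j + 2) - 1 := by
    rw [htdef]; push_cast; exact geom_sum_mul _ _
  have e1 : (d1 : ℤ) = 3 ^ j * (y - 1) := by
    have : ((3 ^ (j + b + 1) : ℕ) : ℤ) = ((3 ^ j + d1 : ℕ) : ℤ) := by rw [hd.1]
    rw [hy]; push_cast at this ⊢; linear_combination -this
  have e2 : (d2 : ℤ) = 3 ^ j * (y - 1) + 2 * 3 ^ (2 * j + 1) * (y ^ 2 - 1) := by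
    have : ((3 ^ (j + b + 1) + 2 * 3 ^ (2 * (j + b + 1) + 1) : ℕ) : ℤ) =
      ((3 ^ j + 2 * 3 ^ (2 * j + 1) + d2 : ℕ) : ℤ) := by rw [hd.2]
    rw [hy]; push_cast at this ⊢; linear_combination -this
  set D := 3 ^ (2 * j + 1) * (y * (y ^ (j + 2) + y ^ (j + 1) - 1)) with hD
  have hp : 1 ≤ y ^ (j + 2) + y ^ (j + 1) := by
    have : 1 ≤ y ^ (j + 1) := Nat.one_le_pow _ _ hy1
    omega
  have f1 : 3 ^ j + t * d1 = 3 ^ (j + (b + 1) * (j + 2)) := by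
    zify
    rw [e1, pow_add, pow_mul]
    have : ((3 : ℤ) ^ (b + 1)) = y := by rw [hy]; push_cast; rfl
    rw [this]
    linear_combination 3 ^ j * hgeom
  have f2 : 3 ^ j + 2 * 3 ^ (2 * j + 1) + t * d2 = 3 ^ (j + (b + 1) * (j + 2)) + 2 * D := by
    rw [← f1, hD]
    zify [hp]
    rw [e1, e2]
    linear_combination 2 * 3 ^ (2 * j + 1) * (y + 1) * hgeom
  have := ht t
  simp only [Prod.smul_mk, smul_eq_mul, Prod.mk_add_mk, f1, f2] at this
  obtain ⟨z, z1, z2⟩ := (mem_iff w hw0 _ _).1 this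
  refine outS w hw _ D ?_ z z1 z2
  intro hdv
  have hle : 2 * j + 1 + (b + 1) + 1 ≤ j + (b + 1) * (j + 2) + 1 := by nlinarith
  have h6 := (pow_dvd_pow 3 hle).trans hdv
  rw [hD, hy, ← mul_assoc, ← pow_add, pow_succ 3 (2 * j + 1 + (b + 1))] at h6
  have h7 := Nat.dvd_of_mul_dvd_mul_left (by positivity) h6
  have h8 : 3 ∣ (3 ^ (b + 1)) ^ (j + 2) + (3 ^ (b + 1)) ^ (j + 1) :=
    Dvd.dvd.add (dvd_pow (dvd_pow_self 3 (by omega)) (by omega))
      (dvd_pow (dvd_pow_self 3 (by omega)) (by omega))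
  rw [← hy] at h7 h8
  omega

end Pool.Agent.Results.MP_2fa0cb_nt.RankTwo
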